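import Pool.Agent.Helper954_Tarski.Prod

set_option autoImplicit false

universe u

namespace Pool.Agent.Results.MP_ab148e_al.ProductBound

open Pool.Agent.Helper954_Tarski

/-- `G` has a paradoxical decomposition with at most `n` pieces (the same condition as in the
frozen statement): pairwise disjoint sets `A 1, …, A k, B 1, …, B l` with `k + l ≤ n`, and group
elements `g i`, `h j`, with `G = ⋃ i, g i * A i = ⋃ j, h j * B j`. -/
def Paradox (G : Type u) [Group G] (n : ℕ) : Prop :=
  ∃ (k l : ℕ) (A : Fin k → Set G) (B : Fin l → Set G) (g : Fin k → G) (h : Fin l → G),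
    k + l ≤ n ∧
    Pairwise (fun i j => Disjoint (A i) (A j)) ∧
    Pairwise (fun i j => Disjoint (B i) (B j)) ∧
    (∀ i j, Disjoint (A i) (B j)) ∧
    (⋃ i, (fun x => g i * x) '' A i) = Set.univ ∧
    (⋃ j, (fun x => h j * x) '' B j) = Set.univ

/-- transport along an isomorphism -/
lemma paradox_of_mulEquiv {G H : Type u} [Group G] [Group H] (e : G ≃* H) {n : ℕ}
    (hG : Paradox G n) : Paradox H n := by
  obtain ⟨k, l, A, B, g, h, hkl, hA, hB, hAB, hgA, hhB⟩ := hG
  refine ⟨k, l, fun i => e '' A i, fun i => e '' B i, fun i => e (g i), fun i => e (h i), hkl,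
    ?_, ?_, ?_, ?_, ?_⟩
  · intro i j hij
    exact (Set.disjoint_image_iff e.injective).2 (hA hij)
  · intro i j hij
    exact (Set.disjoint_image_iff e.injective).2 (hB hij)
  · intro i j
    exact (Set.disjoint_image_iff e.injective).2 (hAB i j)
  · rw [Set.eq_univ_iff_forall] at hgA ⊢
    intro x
    obtain ⟨i, y, hy, hyx⟩ := Set.mem_iUnion.1 (hgA (e.symm x))
    refine Set.mem_iUnion.2 ⟨i, e y, ⟨y, hy, rfl⟩, ?_⟩
    have hyx' : g i * y = e.symm x := hyx
    change e (g i) * e y = x
    rw [← map_mul, hyx']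
    simp
  · rw [Set.eq_univ_iff_forall] at hhB ⊢
    intro x
    obtain ⟨i, y, hy, hyx⟩ := Set.mem_iUnion.1 (hhB (e.symm x))
    refine Set.mem_iUnion.2 ⟨i, e y, ⟨y, hy, rfl⟩, ?_⟩
    have hyx' : h i * y = e.symm x := hyx
    change e (h i) * e y = x
    rw [← map_mul, hyx']
    simp

/-- the two-element family `(G, H)` -/
def fam (G H : Type u) : Bool → Type u := fun b => cond b G H

instance (G H : Type u) [Group G] [Group H] : ∀ b, Group (fam G H b)
  | true => (inferInstance : Group G)
  | false => (inferInstance : Group H)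

/-- `G × H` as a product over `Bool` -/
def famEquiv (G H : Type u) [Group G] [Group H] : G × H ≃* (∀ b, fam G H b) where
  toFun p b := match b with
    | true => p.1
    | false => p.2
  invFun f := (f true, f false)
  left_inv _ := rfl
  right_inv f := by
    funext b
    cases b <;> rfl
  map_mul' p q := by
    funext b
    cases b <;> rfl

/-- **Theorem.** (1) If `G × H` has a paradoxical decomposition with at most `n` pieces, then
`G` or `H` has one with at most `(n - 1)^2 + 1` pieces; in particular
`T(G) ≤ (T(G × G) - 1)^2 + 1`.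
(2) If the product of a finite family of `j` groups has a paradoxical decomposition with at most
`n` pieces, then one of the groups has one with at most
`2 * (1 + (n-2) + ⋯ + (n-2)^(j-1)) + (n-2)^j` pieces. -/
theorem result :
    (∀ (G H : Type u) [Group G] [Group H] (n : ℕ), Paradox (G × H) n →
      Paradox G ((n - 1) ^ 2 + 1) ∨ Paradox H ((n - 1) ^ 2 + 1)) ∧
    (∀ (ι : Type) [Fintype ι] (H : ι → Type u) [∀ i, Group (H i)] (n : ℕ),
      Paradox (∀ i, H i) n →
      ∃ i, Paradox (H i)
        (2 * ∑ l ∈ Finset.range (Fintype.card ι), (n - 2) ^ l + (n - 2) ^ Fintype.card ι)) := by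
  have h2 : ∀ (ι : Type) [Fintype ι] (H : ι → Type u) [∀ i, Group (H i)] (n : ℕ),
      Paradox (∀ i, H i) n →
      ∃ i, Paradox (H i)
        (2 * ∑ l ∈ Finset.range (Fintype.card ι), (n - 2) ^ l + (n - 2) ^ Fintype.card ι) := by
    intro ι _ H _ n h
    exact exists_hasParadox_factor H n h
  refine ⟨?_, h2⟩
  intro G H _ _ n h
  have hpos : 2 ≤ n := by
    obtain ⟨k, l, A, B, g, h, hkl, -, -, -, hgA, hhB⟩ := h
    have hk : k ≠ 0 := by
      rintro rfl
      have := Set.eq_univ_iff_forall.1 hgA 1
      simp at this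
    have hl : l ≠ 0 := by
      rintro rfl
      have := Set.eq_univ_iff_forall.1 hhB 1
      simp at this
    omega
  obtain ⟨i, hi⟩ := h2 Bool (fam G H) n (paradox_of_mulEquiv (famEquiv G H) h)
  have e : 2 * ∑ l ∈ Finset.range (Fintype.card Bool), (n - 2) ^ l + (n - 2) ^ Fintype.card Bool
      = (n - 1) ^ 2 + 1 := by
    obtain ⟨m, rfl⟩ := Nat.exists_eq_add_of_le hpos
    have e1 : 2 + m - 2 = m := by omega
    have e2 : 2 + m - 1 = m + 1 := by omega
    rw [e1, e2, Fintype.card_bool]
    simp only [Finset.sum_range_succ, Finset.sum_range_zero, pow_zero, pow_one, zero_add]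
    ring
  rw [e] at hi
  cases i with
  | true => exact Or.inl hi
  | false => exact Or.inr hi

end Pool.Agent.Results.MP_ab148e_al.ProductBound
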